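import Mathlib

/-!
# Light transversals of 3-uniform hypergraphs of maximum degree three

Every 3-uniform hypergraph (with repeated edges allowed) in which every vertex is in at most three
edges has, for all nonnegative vertex weights, a transversal whose weight is at most one half of the
total weight.

Proof. If the hypergraph has a proper 2-colouring, take the lighter colour class. Otherwise take a
minimal subfamily `F` of edges without proper 2-colouring. By linear algebra (Seymour) `F` covers at
most `|F|` vertices, so `F` is a 3-regular connected component. Let `x` be a lightest vertex of it,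
`e` an edge of `F` through `x`, and `c` a colouring in which `e` is the only monochromatic edge of
`F`. Each of the other `|F| - 1` edges has exactly one vertex which is alone with its colour, so some
vertex `t` is alone in no edge; it is not in `e`, and changing its colour gives another such
colouring. One of the two colour classes, or the other class plus `x`, is light enough.
-/

set_option autoImplicit false

namespace Pool.Agent.Run7.h121.FTD

open Finset

variable {V ι : Type} [Fintype V] [DecidableEq V] [Fintype ι] [DecidableEq ι]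

/-- A proper 2-colouring of the edges in `F`. -/
def Col (N : ι → Finset V) (F : Finset ι) (c : V → Bool) : Prop :=
  ∀ i ∈ F, (∃ v ∈ N i, c v = true) ∧ (∃ v ∈ N i, c v = false)

/-- **Seymour.** A minimal family of edges without proper 2-colouring covers at most as many vertices
as it has edges. -/
theorem seymour (N : ι → Finset V) (F : Finset ι)
    (hF : ¬ ∃ c, Col N F c) (hmin : ∀ F' : Finset ι, F' ⊂ F → ∃ c, Col N F' c) :
    (F.biUnion N).card ≤ F.card := by
  classical
  by_contra hlt
  push Not at hlt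
  -- the linear map
  let f : ({x // x ∈ F.biUnion N} → ℝ) →ₗ[ℝ] ({i // i ∈ F} → ℝ) :=
    { toFun := fun z i => ∑ v : {x // x ∈ F.biUnion N}, if (v : V) ∈ N i then z v else 0
      map_add' := by
        intro a b
        funext i
        simp only [Pi.add_apply]
        rw [← Finset.sum_add_distrib]
        refine Finset.sum_congr rfl fun v _ => ?_
        split_ifs <;> simp
      map_smul' := by
        intro r a
        funext i
        simp only [Pi.smul_apply, smul_eq_mul, RingHom.id_apply]
        rw [Finset.mul_sum]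
        refine Finset.sum_congr rfl fun v _ => ?_
        split_ifs <;> simp }
  have hker : LinearMap.ker f ≠ ⊥ := by
    apply LinearMap.ker_ne_bot_of_finrank_lt
    rw [Module.finrank_fintype_fun_eq_card, Module.finrank_fintype_fun_eq_card,
      Fintype.card_coe, Fintype.card_coe]
    exact hlt
  obtain ⟨z, hz, hz0⟩ := (Submodule.ne_bot_iff _).1 hker
  rw [LinearMap.mem_ker] at hz
  -- extension by zero
  let y : V → ℝ := fun v => if h : v ∈ F.biUnion N then z ⟨v, h⟩ else 0
  have hy : ∀ i ∈ F, ∑ v ∈ N i, y v = 0 := by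
    intro i hi
    have h1 := congrFun hz ⟨i, hi⟩
    simp only [f, LinearMap.coe_mk, AddHom.coe_mk, Pi.zero_apply] at h1
    rw [← h1]
    have h2 : ∑ v : {x // x ∈ F.biUnion N}, (if (v : V) ∈ N i then z v else 0) =
        ∑ v : {x // x ∈ F.biUnion N}, (if (v : V) ∈ N i then y v else 0) := by
      refine Finset.sum_congr rfl fun v _ => ?_
      have : y v = z v := by
        simp only [y]
        rw [dif_pos v.2]
      rw [this]
    rw [h2, Finset.sum_coe_sort (F.biUnion N) (fun v => if v ∈ N i then y v else 0),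
      ← Finset.sum_filter]
    refine Finset.sum_congr ?_ fun _ _ => rfl
    ext v
    simp only [mem_filter, mem_biUnion]
    exact ⟨fun h => ⟨⟨i, hi, h⟩, h⟩, fun h => h.2⟩
  have hne : ∃ v ∈ F.biUnion N, y v ≠ 0 := by
    by_contra hcon
    push Not at hcon
    apply hz0
    funext v
    have := hcon v v.2
    simp only [y] at this
    rw [dif_pos v.2] at this
    simpa using this
  obtain ⟨v0, hv0, hyv0⟩ := hne
  obtain ⟨i0, hi0, hvi0⟩ := mem_biUnion.1 hv0
  obtain ⟨c0, hc0⟩ := hmin (F.filter fun i => ∀ v ∈ N i, y v = 0) (by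
    rw [Finset.ssubset_iff_subset_ne]
    refine ⟨filter_subset _ _, fun h => ?_⟩
    rw [← h] at hi0
    exact hyv0 ((mem_filter.1 hi0).2 v0 hvi0))
  apply hF
  refine ⟨fun v => if y v = 0 then c0 v else decide (0 < y v), fun i hi => ?_⟩
  by_cases hall : ∀ v ∈ N i, y v = 0
  · obtain ⟨⟨a, ha, ha'⟩, ⟨b, hb, hb'⟩⟩ := hc0 i (mem_filter.2 ⟨hi, hall⟩)
    refine ⟨⟨a, ha, ?_⟩, ⟨b, hb, ?_⟩⟩
    · simp only [hall a ha, if_true, ha']
    · simp only [hall b hb, if_true, hb']
  · push Not at hall
    obtain ⟨v, hv, hv'⟩ := hall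
    have hs := hy i hi
    obtain ⟨a, ha, ha'⟩ : ∃ a ∈ N i, 0 < y a := by
      by_contra hcon
      push Not at hcon
      have := (Finset.sum_eq_zero_iff_of_nonpos hcon).1 hs v hv
      exact hv' this
    obtain ⟨b, hb, hb'⟩ : ∃ b ∈ N i, y b < 0 := by
      by_contra hcon
      push Not at hcon
      have := (Finset.sum_eq_zero_iff_of_nonneg hcon).1 hs v hv
      exact hv' this
    refine ⟨⟨a, ha, ?_⟩, ⟨b, hb, ?_⟩⟩
    · simp only [ha'.ne', if_false, decide_eq_true_eq]
      exact ha'
    · simp only [hb'.ne, if_false, decide_eq_false_iff_not, not_lt]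
      exact hb'.le

/-- The weight of a colour class inside `U`. -/
noncomputable def wt (U : Finset V) (w : V → ℝ) (c : V → Bool) (b : Bool) : ℝ :=
  ∑ v ∈ U.filter (fun v => c v = b), w v

theorem wt_add (U : Finset V) (w : V → ℝ) (c : V → Bool) :
    wt U w c true + wt U w c false = ∑ v ∈ U, w v := by
  unfold wt
  rw [← Finset.sum_filter_add_sum_filter_not U (fun v => c v = true) w]
  congr 1
  refine Finset.sum_congr ?_ fun _ _ => rfl
  ext v
  simp

theorem wt_flip (U : Finset V) (w : V → ℝ) (c : V → Bool) (t : V) (ht : t ∈ U) (b : Bool)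
    (hb : c t = b) : wt U w (Function.update c t (!b)) b = wt U w c b - w t := by
  unfold wt
  have h1 : U.filter (fun v => c v = b) =
      insert t (U.filter (fun v => Function.update c t (!b) v = b)) := by
    ext v
    by_cases hv : v = t
    · subst hv
      simp [ht, hb]
    · simp [Function.update_of_ne hv, hv]
  have h2 : t ∉ U.filter (fun v => Function.update c t (!b) v = b) := by
    simp
  rw [h1, Finset.sum_insert h2]
  ring

/-- The main step. -/
theorem component (N : ι → Finset V) (F : Finset ι) (h3 : ∀ i, (N i).card = 3)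
    (hF : ¬ ∃ c, Col N F c) (hmin : ∀ F' : Finset ι, F' ⊂ F → ∃ c, Col N F' c)
    (hcard : F.card ≤ (F.biUnion N).card) (w : V → ℝ) (hw : ∀ v, 0 ≤ w v) :
    ∃ T ⊆ F.biUnion N, (∀ i ∈ F, ∃ v ∈ T, v ∈ N i) ∧
      2 * ∑ v ∈ T, w v ≤ ∑ v ∈ F.biUnion N, w v := by
  classical
  set U := F.biUnion N with hU
  have hFne : F.Nonempty := by
    rw [Finset.nonempty_iff_ne_empty]
    intro h
    apply hF
    refine ⟨fun _ => true, fun i hi => ?_⟩
    rw [h] at hi
    exact absurd hi (notMem_empty i)
  have hUne : U.Nonempty := by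
    obtain ⟨i, hi⟩ := hFne
    have : (N i).Nonempty := by
      rw [← card_pos, h3]
      norm_num
    obtain ⟨v, hv⟩ := this
    exact ⟨v, mem_biUnion.2 ⟨i, hi, hv⟩⟩
  obtain ⟨x, hxU, hxmin⟩ := Finset.exists_min_image U w hUne
  obtain ⟨e, he, hxe⟩ := mem_biUnion.1 hxU
  obtain ⟨c', hc'⟩ := hmin (F.erase e) (erase_ssubset he)
  -- e is monochromatic
  obtain ⟨c, hc, hce⟩ : ∃ c, Col N (F.erase e) c ∧ ∀ v ∈ N e, c v = true := by
    by_cases h1 : ∃ v ∈ N e, c' v = true
    · refine ⟨c', hc', ?_⟩
      by_contra hcon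
      push Not at hcon
      obtain ⟨v, hv, hv'⟩ := hcon
      apply hF
      refine ⟨c', fun i hi => ?_⟩
      by_cases hie : i = e
      · subst hie
        exact ⟨h1, ⟨v, hv, by simpa using hv'⟩⟩
      · exact hc' i (mem_erase.2 ⟨hie, hi⟩)
    · push Not at h1
      refine ⟨fun v => !(c' v), ?_, ?_⟩
      · intro i hi
        obtain ⟨⟨a, ha, ha'⟩, ⟨b, hb, hb'⟩⟩ := hc' i hi
        exact ⟨⟨b, hb, by simp [hb']⟩, ⟨a, ha, by simp [ha']⟩⟩
      · intro v hv
        have := h1 v hv
        simpa using this
  -- a vertex which is alone in no edge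
  obtain ⟨t, htU, ht⟩ : ∃ t ∈ U, ∀ i ∈ F.erase e, t ∈ N i → ∃ s ∈ N i, s ≠ t ∧ c s = c t := by
    by_contra hcon
    push Not at hcon
    have hch : ∀ t : V, ∃ i, t ∈ U → i ∈ F.erase e ∧ t ∈ N i ∧ ∀ s ∈ N i, s ≠ t → c s ≠ c t := by
      intro t
      by_cases htU : t ∈ U
      · obtain ⟨i, hi, hti, hs⟩ := hcon t htU
        exact ⟨i, fun _ => ⟨hi, hti, hs⟩⟩
      · obtain ⟨i, _⟩ := hFne
        exact ⟨i, fun h => absurd h htU⟩
    choose g hg using hch
    have hinj : Set.InjOn g U := by
      intro a ha b hb hab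
      by_contra hne
      obtain ⟨_, ha2, ha3⟩ := hg a ha
      obtain ⟨_, hb2, hb3⟩ := hg b hb
      rw [← hab] at hb2 hb3
      -- third vertex
      obtain ⟨s, hs, hsa, hsb⟩ : ∃ s ∈ N (g a), s ≠ a ∧ s ≠ b := by
        by_contra hcon2
        push Not at hcon2
        have hsub : N (g a) ⊆ {a, b} := by
          intro s hs
          by_cases h : s = a
          · simp [h]
          · simp [hcon2 s hs h]
        have := card_le_card hsub
        rw [h3] at this
        have h2 : ({a, b} : Finset V).card ≤ 2 := card_le_two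
        omega
      have e1 := ha3 s hs hsa
      have e2 := hb3 s hs hsb
      have e3 := ha3 b hb2 (Ne.symm hne)
      revert e1 e2 e3
      cases c s <;> cases c a <;> cases c b <;> simp
    have hmaps : Set.MapsTo g U (F.erase e : Finset ι) := by
      intro a ha
      exact mem_coe.2 (hg a ha).1
    have := Finset.card_le_card_of_injOn g (by intro a ha; exact hmaps (mem_coe.2 ha)) hinj
    rw [card_erase_of_mem he] at this
    have hp := card_pos.2 hFne
    omega
  -- it is not in e
  have hflip : Col N (F.erase e) (Function.update c t (!(c t))) := by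
    intro i hi
    by_cases hti : t ∈ N i
    · obtain ⟨s, hs, hst, hcs⟩ := ht i hi hti
      rcases hb : c t with _ | _
      · refine ⟨⟨t, hti, by simp⟩, ⟨s, hs, ?_⟩⟩
        rw [Function.update_of_ne hst, hcs, hb]
      · refine ⟨⟨s, hs, ?_⟩, ⟨t, hti, by simp⟩⟩
        rw [Function.update_of_ne hst, hcs, hb]
    · obtain ⟨⟨a, ha, ha'⟩, ⟨b, hb, hb'⟩⟩ := hc i hi
      refine ⟨⟨a, ha, ?_⟩, ⟨b, hb, ?_⟩⟩
      · rw [Function.update_of_ne (fun h : a = t => hti (by rw [← h]; exact ha)), ha']
      · rw [Function.update_of_ne (fun h : b = t => hti (by rw [← h]; exact hb)), hb']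
  have hte : t ∉ N e := by
    intro hte
    apply hF
    refine ⟨Function.update c t (!(c t)), fun i hi => ?_⟩
    by_cases hie : i = e
    · subst hie
      obtain ⟨s, hs, hst⟩ : ∃ s ∈ N i, s ≠ t := by
        by_contra hcon2
        push Not at hcon2
        have hsub : N i ⊆ {t} := by
          intro s hs
          simp [hcon2 s hs]
        have := card_le_card hsub
        rw [h3, card_singleton] at this
        omega
      refine ⟨⟨s, hs, ?_⟩, ⟨t, hte, ?_⟩⟩
      · rw [Function.update_of_ne hst, hce s hs]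
      · simp [hce t hte]
    · exact hflip i (mem_erase.2 ⟨hie, hi⟩)
  -- general facts on colourings
  have key1 : ∀ d : V → Bool, Col N (F.erase e) d → (∀ v ∈ N e, d v = true) →
      (∀ i ∈ F, ∃ v ∈ U.filter (fun v => d v = true), v ∈ N i) := by
    intro d hd hde i hi
    by_cases hie : i = e
    · subst hie
      exact ⟨x, mem_filter.2 ⟨hxU, hde x hxe⟩, hxe⟩
    · obtain ⟨⟨a, ha, ha'⟩, _⟩ := hd i (mem_erase.2 ⟨hie, hi⟩)
      exact ⟨a, mem_filter.2 ⟨mem_biUnion.2 ⟨i, hi, ha⟩, ha'⟩, ha⟩
  have key2 : ∀ d : V → Bool, Col N (F.erase e) d →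
      (∀ i ∈ F, ∃ v ∈ insert x (U.filter (fun v => d v = false)), v ∈ N i) := by
    intro d hd i hi
    by_cases hie : i = e
    · subst hie
      exact ⟨x, mem_insert_self _ _, hxe⟩
    · obtain ⟨_, ⟨a, ha, ha'⟩⟩ := hd i (mem_erase.2 ⟨hie, hi⟩)
      exact ⟨a, mem_insert_of_mem (mem_filter.2 ⟨mem_biUnion.2 ⟨i, hi, ha⟩, ha'⟩), ha⟩
  have hins : ∀ d : V → Bool, ∑ v ∈ insert x (U.filter (fun v => d v = false)), w v ≤
      w x + wt U w d false := by
    intro d
    unfold wt
    by_cases h : x ∈ U.filter (fun v => d v = false)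
    · rw [insert_eq_of_mem h]
      linarith [hw x]
    · rw [sum_insert h]
  have hde' : ∀ v ∈ N e, Function.update c t (!(c t)) v = true := by
    intro v hv
    rw [Function.update_of_ne (fun h : v = t => hte (by rw [← h]; exact hv)), hce v hv]
  have hsum := wt_add U w c
  have hsum' := wt_add U w (Function.update c t (!(c t)))
  have hwt := hxmin t htU
  by_cases h1 : 2 * wt U w c true ≤ ∑ v ∈ U, w v
  · exact ⟨_, filter_subset _ _, key1 c hc hce, h1⟩
  push Not at h1
  by_cases hb : c t = true
  · have hfl := wt_flip U w c t htU true hb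
    rw [hb] at hflip hde' hsum'
    by_cases h2 : 2 * wt U w (Function.update c t (!true)) true ≤ ∑ v ∈ U, w v
    · exact ⟨_, filter_subset _ _, key1 _ hflip hde', h2⟩
    · push Not at h2
      refine ⟨insert x (U.filter (fun v => c v = false)), ?_, key2 c hc, ?_⟩
      · exact insert_subset hxU (filter_subset _ _)
      · have := hins c
        linarith
  · have hb' : c t = false := by simpa using hb
    have hfl := wt_flip U w c t htU false hb'
    rw [hb'] at hflip hde' hsum'
    refine ⟨insert x (U.filter (fun v => Function.update c t (!false) v = false)), ?_,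
      key2 _ hflip, ?_⟩
    · exact insert_subset hxU (filter_subset _ _)
    · have := hins (Function.update c t (!false))
      linarith

/-- The degree count: a minimal family without proper 2-colouring is a component. -/
theorem closed (N : ι → Finset V) (F : Finset ι) (h3 : ∀ i, (N i).card = 3)
    (hdeg : ∀ v, (univ.filter (fun i => v ∈ N i)).card ≤ 3)
    (hle : (F.biUnion N).card ≤ F.card) :
    F.card ≤ (F.biUnion N).card ∧ ∀ v ∈ F.biUnion N, ∀ i, v ∈ N i → i ∈ F := by
  classical
  set U := F.biUnion N with hU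
  have hdc : ∑ i ∈ F, (N i).card = ∑ v ∈ U, (F.filter (fun i => v ∈ N i)).card := by
    have h := Finset.sum_card_bipartiteAbove_eq_sum_card_bipartiteBelow
      (s := F) (t := U) (fun i v => v ∈ N i)
    rw [← show ∑ i ∈ F, (Finset.bipartiteAbove (fun i v => v ∈ N i) U i).card =
      ∑ i ∈ F, (N i).card from ?_]
    · rw [h]
      rfl
    · refine sum_congr rfl fun i hi => ?_
      congr 1
      ext v
      rw [mem_bipartiteAbove, hU, mem_biUnion]
      exact ⟨fun h => h.2, fun h => ⟨⟨i, hi, h⟩, h⟩⟩
  have hleft : ∑ i ∈ F, (N i).card = 3 * F.card := by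
    rw [sum_congr rfl (fun i _ => h3 i), sum_const, smul_eq_mul, mul_comm]
  have hd : ∀ v ∈ U, (F.filter (fun i => v ∈ N i)).card ≤ 3 := by
    intro v _
    exact (card_le_card (filter_subset_filter _ (subset_univ F))).trans (hdeg v)
  have hright : ∑ v ∈ U, (F.filter (fun i => v ∈ N i)).card ≤ 3 * U.card := by
    calc ∑ v ∈ U, (F.filter (fun i => v ∈ N i)).card ≤ ∑ _v ∈ U, 3 := sum_le_sum hd
      _ = 3 * U.card := by rw [sum_const, smul_eq_mul, mul_comm]
  have hFU : F.card ≤ U.card := by
    rw [hleft] at hdc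
    omega
  refine ⟨hFU, ?_⟩
  have heq : ∑ v ∈ U, (F.filter (fun i => v ∈ N i)).card = ∑ _v ∈ U, 3 := by
    rw [sum_const, smul_eq_mul]
    omega
  have hall := (Finset.sum_eq_sum_iff_of_le hd).1 heq
  intro v hv i hi
  have h1 : F.filter (fun i => v ∈ N i) = univ.filter (fun i => v ∈ N i) := by
    apply Finset.eq_of_subset_of_card_le (filter_subset_filter _ (subset_univ F))
    rw [hall v hv]
    exact hdeg v
  have h2 : i ∈ univ.filter (fun i => v ∈ N i) := mem_filter.2 ⟨mem_univ i, hi⟩
  rw [← h1] at h2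
  exact (mem_filter.1 h2).1

/-- **Light transversals.** -/
theorem light (N : ι → Finset V) (h3 : ∀ i, (N i).card = 3)
    (hdeg : ∀ v, (univ.filter (fun i => v ∈ N i)).card ≤ 3) (w : V → ℝ) (hw : ∀ v, 0 ≤ w v)
    (k : ℕ) : ∀ (F : Finset ι) (U : Finset V), F.card ≤ k → (∀ i ∈ F, N i ⊆ U) →
      ∃ T ⊆ U, (∀ i ∈ F, ∃ v ∈ T, v ∈ N i) ∧ 2 * ∑ v ∈ T, w v ≤ ∑ v ∈ U, w v := by
  classical
  induction k with
  | zero =>
    intro F U hF _
    have : F = ∅ := card_eq_zero.1 (Nat.le_zero.1 hF)
    subst this
    refine ⟨∅, empty_subset _, by simp, ?_⟩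
    simpa using sum_nonneg fun v _ => hw v
  | succ k ih =>
    intro F U hFk hFU
    by_cases hcol : ∃ c, Col N F c
    · obtain ⟨c, hc⟩ := hcol
      have hs := wt_add U w c
      by_cases h : 2 * wt U w c true ≤ ∑ v ∈ U, w v
      · refine ⟨_, filter_subset _ _, fun i hi => ?_, h⟩
        obtain ⟨⟨a, ha, ha'⟩, _⟩ := hc i hi
        exact ⟨a, mem_filter.2 ⟨hFU i hi ha, ha'⟩, ha⟩
      · push Not at h
        refine ⟨U.filter (fun v => c v = false), filter_subset _ _, fun i hi => ?_, ?_⟩
        · obtain ⟨_, ⟨a, ha, ha'⟩⟩ := hc i hi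
          exact ⟨a, mem_filter.2 ⟨hFU i hi ha, ha'⟩, ha⟩
        · change 2 * wt U w c false ≤ _
          linarith
    · -- a minimal subfamily
      obtain ⟨M, hM, hMmin⟩ := Finset.exists_min_image
        (F.powerset.filter (fun F' => ¬ ∃ c, Col N F' c)) Finset.card
        ⟨F, mem_filter.2 ⟨mem_powerset.2 (Subset.refl F), hcol⟩⟩
      obtain ⟨hMF, hMc⟩ := mem_filter.1 hM
      rw [mem_powerset] at hMF
      have hMmin' : ∀ F' : Finset ι, F' ⊂ M → ∃ c, Col N F' c := by
        intro F' hF'
        by_contra hcon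
        have := hMmin F' (mem_filter.2 ⟨mem_powerset.2 (hF'.subset.trans hMF), hcon⟩)
        exact absurd (card_lt_card hF') (not_lt.2 this)
      have hsey := seymour N M hMc hMmin'
      obtain ⟨hMU, hcl⟩ := closed N M h3 hdeg hsey
      obtain ⟨T1, hT1, hT1a, hT1b⟩ := component N M h3 hMc hMmin' hMU w hw
      have hMne : M.Nonempty := by
        rw [Finset.nonempty_iff_ne_empty]
        intro h
        apply hMc
        refine ⟨fun _ => true, fun i hi => ?_⟩
        rw [h] at hi
        exact absurd hi (notMem_empty i)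
      obtain ⟨T2, hT2, hT2a, hT2b⟩ := ih (F \ M) (U \ M.biUnion N) (by
          rw [card_sdiff_of_subset hMF]
          have := card_pos.2 hMne
          omega) (by
          intro i hi v hv
          obtain ⟨hiF, hiM⟩ := mem_sdiff.1 hi
          refine mem_sdiff.2 ⟨hFU i hiF hv, fun hvM => ?_⟩
          exact hiM (hcl v hvM i hv))
      have hsub : M.biUnion N ⊆ U := by
        intro v hv
        obtain ⟨i, hi, hvi⟩ := mem_biUnion.1 hv
        exact hFU i (hMF hi) hvi
      have hdisj : Disjoint T1 T2 := by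
        rw [Finset.disjoint_left]
        intro v h1 h2
        exact (mem_sdiff.1 (hT2 h2)).2 (hT1 h1)
      refine ⟨T1 ∪ T2, union_subset (hT1.trans hsub) (hT2.trans sdiff_subset), ?_, ?_⟩
      · intro i hi
        by_cases hiM : i ∈ M
        · obtain ⟨v, hv, hv'⟩ := hT1a i hiM
          exact ⟨v, mem_union_left _ hv, hv'⟩
        · obtain ⟨v, hv, hv'⟩ := hT2a i (mem_sdiff.2 ⟨hi, hiM⟩)
          exact ⟨v, mem_union_right _ hv, hv'⟩
      · rw [sum_union hdisj]
        have := Finset.sum_sdiff hsub (f := w)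
        linarith

end Pool.Agent.Run7.h121.FTD
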